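import Pool.Agent.N73.Dir.Nil

set_option autoImplicit false

/-! Residual `p`-finiteness of torsion-free nilpotent groups; generation lemmas. -/

namespace Pool.Agent.N73.Dir

open Subgroup
open scoped commutatorElement

variable {G : Type*} [Group G]

/-- A finitely generated torsion-free nilpotent group is residually a finite `p`-group. -/
theorem residual (p : ℕ) [hp : Fact p.Prime] (N : Type*) [Group N] [hN : Group.IsNilpotent N]
    [Group.FG N] (hTF : TF (⊤ : Subgroup N)) (z : N) (hz1 : z ≠ 1) :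
    ∃ Q : Subgroup N, Q.Normal ∧ z ∉ Q ∧ Q.FiniteIndex ∧ ∃ e : ℕ, ∀ x : N, x ^ (p ^ e) ∈ Q := by
  classical
  obtain ⟨n, hn⟩ := hN.nilpotent'
  have hex : ∃ j, z ∈ Subgroup.upperCentralSeries N j := ⟨n, by rw [hn]; trivial⟩
  obtain ⟨i, hi⟩ : ∃ i, Nat.find hex = i + 1 := by
    rcases h : Nat.find hex with _ | i
    · have := Nat.find_spec hex
      rw [h, Subgroup.upperCentralSeries_zero, mem_bot] at this
      exact absurd this hz1
    · exact ⟨i, rfl⟩
  have hz2 : z ∈ Subgroup.upperCentralSeries N (i + 1) := hi ▸ Nat.find_spec hex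
  have hz3 : z ∉ Subgroup.upperCentralSeries N i := Nat.find_min hex (by omega)
  have hz4 : ∀ m : ℕ, 0 < m → z ^ m ∉ Subgroup.upperCentralSeries N i := fun m hm h =>
    hz3 (ucs_TF hTF i z hz2 m hm h)
  let Z := Subgroup.upperCentralSeries N i
  have hzc : (z : N ⧸ Z) ∈ center (N ⧸ Z) := by
    rw [mem_center_iff]
    intro q
    obtain ⟨x, rfl⟩ := QuotientGroup.mk_surjective q
    have h2 := Subgroup.mem_upperCentralSeries_succ_iff.mp hz2 x
    rw [← QuotientGroup.eq_one_iff] at h2
    have h3 : ⁅(z : N ⧸ Z), (x : N ⧸ Z)⁆ = 1 := by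
      rw [← h2]; rfl
    exact (commutatorElement_eq_one_iff_mul_comm.mp h3).symm
  let C : Subgroup (N ⧸ Z) := zpowers ((z : N ⧸ Z) ^ p)
  have hC : C.Normal := normal_of_le_center (by rw [zpowers_le]; exact pow_mem hzc p)
  let φ : N →* (N ⧸ Z) ⧸ C := (QuotientGroup.mk' C).comp (QuotientGroup.mk' Z)
  have hφ : Function.Surjective φ :=
    (QuotientGroup.mk'_surjective C).comp (QuotientGroup.mk'_surjective Z)
  have hφz : φ z ≠ 1 := by
    intro h
    have h1 : (z : N ⧸ Z) ∈ C := (QuotientGroup.eq_one_iff _).mp h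
    obtain ⟨a, ha⟩ := mem_zpowers_iff.mp h1
    have h2 : (z : N ⧸ Z) ^ ((p : ℤ) * a - 1) = 1 := by
      rw [zpow_sub, zpow_mul, zpow_natCast, ha, zpow_one, mul_inv_cancel]
    have h3 : (p : ℤ) * a - 1 ≠ 0 := by
      intro h
      have h4 : (p : ℤ) ∣ 1 := ⟨a, by linarith⟩
      have h5 := Int.eq_one_of_dvd_one (by positivity) h4
      have := hp.out.one_lt
      omega
    have h4 : (z : N ⧸ Z) ^ ((p : ℤ) * a - 1).natAbs = 1 := by
      rcases Int.natAbs_eq ((p : ℤ) * a - 1) with h5 | h5
      · rw [← zpow_natCast, ← h5, h2]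
      · rw [← zpow_natCast, ← inv_inj, inv_one, ← zpow_neg, ← h5, h2]
    rw [← QuotientGroup.mk_pow, QuotientGroup.eq_one_iff] at h4
    exact hz4 _ (Int.natAbs_pos.mpr h3) h4
  have hφp : (φ z) ^ p = 1 := by
    rw [← map_pow]
    change (QuotientGroup.mk' C) (((z ^ p : N)) : N ⧸ Z) = 1
    rw [QuotientGroup.mk_pow]
    exact (QuotientGroup.eq_one_iff _).mpr (mem_zpowers _)
  obtain ⟨Q, h1, h2, h3, e, h4⟩ := residual_center p ((N ⧸ Z) ⧸ C) (φ z) hφz hφp
  refine ⟨Q.comap φ, inferInstance, h2, ?_, e, fun x => ?_⟩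
  · refine ⟨?_⟩
    rw [index_comap_of_surjective Q hφ]
    exact h3.index_ne_zero
  · change φ (x ^ p ^ e) ∈ Q
    rw [map_pow]
    exact h4 _

/-- Residual `p`-finiteness of a torsion-free nilpotent normal subgroup `N` of finite index, relative
to the whole group. -/
theorem residual_rel (p : ℕ) [hp : Fact p.Prime] (H : Type*) [Group H] [Group.FG H] (N : Subgroup H)
    [hN : N.Normal] [hfi : N.FiniteIndex] (hnil : Group.IsNilpotent N) (hTF : TF N) (z : H)
    (hz : z ∈ N) (hz1 : z ≠ 1) :
    ∃ Q : Subgroup H, Q.Normal ∧ Q ≤ N ∧ z ∉ Q ∧ Q.FiniteIndex ∧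
      ∃ e : ℕ, ∀ x ∈ N, x ^ (p ^ e) ∈ Q := by
  have hfg : Group.FG N := N.fg_of_index_ne_zero
  have hTF' : TF (⊤ : Subgroup N) := by
    intro x _ n hn h
    have h1 : (x : H) ^ n = 1 := by
      have := congrArg (Subtype.val) h
      simpa using this
    exact Subtype.ext (hTF x x.2 n hn h1)
  obtain ⟨Q0, h1, h2, h3, e, h4⟩ := residual p N hTF' ⟨z, hz⟩
    (by intro h; exact hz1 (congrArg Subtype.val h))
  let Q1 : Subgroup H := Q0.map N.subtype
  have hle : Q1 ≤ N := map_subtype_le Q0
  have hQ1 : Q1.FiniteIndex := by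
    refine ⟨?_⟩
    rw [← relIndex_mul_index hle]
    refine mul_ne_zero ?_ hfi.index_ne_zero
    have : Q1.relIndex N = Q0.index := by
      rw [relIndex, subgroupOf]
      congr 1
      exact comap_map_eq_self_of_injective (subtype_injective N) Q0
    rw [this]
    exact h3.index_ne_zero
  refine ⟨Q1.normalCore, inferInstance, (normalCore_le _).trans hle, ?_, inferInstance, e, ?_⟩
  · intro h
    obtain ⟨y, hy, hyz⟩ := normalCore_le _ h
    have : y = ⟨z, hz⟩ := Subtype.ext hyz
    exact h2 (this ▸ hy)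
  · intro x hx b
    have hb : b * x * b⁻¹ ∈ N := hN.conj_mem x hx b
    have h5 : b * x ^ p ^ e * b⁻¹ = (b * x * b⁻¹) ^ p ^ e := (conj_pow).symm
    rw [h5]
    exact ⟨⟨b * x * b⁻¹, hb⟩ ^ p ^ e, h4 _, by simp⟩

/-- In a nilpotent group, generation modulo commutators is generation. -/
theorem eq_top_of_sup_commutator (N : Type*) [Group N] [Group.IsNilpotent N] :
    ∀ S : Subgroup N, S ⊔ _root_.commutator N = ⊤ → S = ⊤ := by
  apply Group.nilpotent_center_quotient_ind (P := fun N _ _ =>
    ∀ S : Subgroup N, S ⊔ _root_.commutator N = ⊤ → S = ⊤)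
  · intro N _ _ S _
    exact Subsingleton.elim _ _
  · intro N _ _ ih S hS
    let q := QuotientGroup.mk' (center N)
    have hq : Function.Surjective q := QuotientGroup.mk'_surjective _
    have h1 : S.map q ⊔ _root_.commutator (N ⧸ center N) = ⊤ := by
      have h2 : (S ⊔ _root_.commutator N).map q = ⊤ := by
        rw [hS]; exact map_top_of_surjective q hq
      rw [Subgroup.map_sup] at h2
      rw [eq_top_iff, ← h2]
      refine sup_le_sup le_rfl ?_
      rw [_root_.commutator_def, _root_.commutator_def, map_commutator]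
      exact commutator_mono le_top le_top
    have h2 := ih _ h1
    have h3 : S ⊔ center N = ⊤ := by
      have h4 : (S.map q).comap q = ⊤ := by rw [h2]; rfl
      rw [comap_map_eq] at h4
      rwa [QuotientGroup.ker_mk'] at h4
    have h4 : _root_.commutator N ≤ S := by
      rw [_root_.commutator_def, commutator_le]
      intro x _ y _
      have hx : x ∈ S ⊔ center N := by rw [h3]; trivial
      have hy : y ∈ S ⊔ center N := by rw [h3]; trivial
      obtain ⟨s, hs, c, hc, rfl⟩ := Subgroup.mem_sup_of_normal_right.mp hx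
      obtain ⟨t, ht, d, hd, rfl⟩ := Subgroup.mem_sup_of_normal_right.mp hy
      have hc' := mem_center_iff.mp hc
      have hd' := mem_center_iff.mp hd
      have : ⁅s * c, t * d⁆ = ⁅s, t⁆ := by
        rw [commutatorElement_def, commutatorElement_def]
        calc s * c * (t * d) * (s * c)⁻¹ * (t * d)⁻¹
            = s * (c * t) * d * (s * c)⁻¹ * (t * d)⁻¹ := by group
          _ = s * (t * c) * d * (s * c)⁻¹ * (t * d)⁻¹ := by rw [← hc' t]
          _ = s * t * (c * d) * (c⁻¹ * s⁻¹) * (t * d)⁻¹ := by group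
          _ = s * t * c * (d * (c⁻¹ * s⁻¹)) * (t * d)⁻¹ := by group
          _ = s * t * c * ((c⁻¹ * s⁻¹) * d) * (t * d)⁻¹ := by rw [← hd' (c⁻¹ * s⁻¹)]
          _ = s * t * s⁻¹ * t⁻¹ := by group
      rw [this, commutatorElement_def]
      exact mul_mem (mul_mem (mul_mem hs ht) (inv_mem hs)) (inv_mem ht)
    rwa [sup_eq_left.mpr h4] at hS

/-- If a commutative group `C` is generated by finitely many elements that are `p`-th powers, `p ≥ 2`,
then `C` has finite exponent. -/
theorem exponent_of_pdiv (C : Type*) [CommGroup C] [Group.FG C] (p : ℕ) (hp : 2 ≤ p)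
    (h : ∀ c : C, ∃ b : C, c = b ^ p) : ∃ δ : ℕ, 0 < δ ∧ ∀ c : C, c ^ δ = 1 := by
  have hfin : Module.Finite ℤ (Additive C) := Module.Finite.iff_addGroup_fg.mpr inferInstance
  obtain ⟨r, hr1, hr2⟩ := Submodule.exists_sub_one_mem_and_smul_eq_zero_of_fg_of_le_smul
    (Ideal.span {(p : ℤ)}) (⊤ : Submodule ℤ (Additive C)) hfin.1 (by
      intro c _
      obtain ⟨b, hb⟩ := h (Additive.toMul c)
      have : c = (p : ℤ) • (Additive.ofMul b) := by
        apply Additive.toMul.injective
        rw [hb]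
        simp
      rw [this]
      exact Submodule.smul_mem_smul (Ideal.mem_span_singleton_self _) trivial)
  have hr : r ≠ 0 := by
    rintro rfl
    rw [zero_sub, Ideal.mem_span_singleton] at hr1
    have h4 : (p : ℤ) ∣ 1 := (dvd_neg.mp hr1)
    have h5 := Int.eq_one_of_dvd_one (by positivity) h4
    omega
  refine ⟨r.natAbs, Int.natAbs_pos.mpr hr, fun c => ?_⟩
  have h1 := hr2 (Additive.ofMul c) trivial
  have h2 : c ^ r = 1 := by
    have := congrArg Additive.toMul h1
    simpa using this
  rcases Int.natAbs_eq r with h5 | h5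
  · rw [← zpow_natCast, ← h5, h2]
  · rw [← zpow_natCast, ← inv_inj, inv_one, ← zpow_neg, ← h5, h2]

/-- left normed commutators -/
def Cs (X : Set G) : ℕ → Set G
  | 0 => X
  | n + 1 => {g | ∃ y ∈ Cs X n, ∃ x ∈ X, g = ⁅y, x⁆}

theorem Cs_finite {X : Set G} (hX : X.Finite) (n : ℕ) : (Cs X n).Finite := by
  induction n with
  | zero => exact hX
  | succ n ih =>
    have : Cs X (n + 1) ⊆ (fun q : G × G => ⁅q.1, q.2⁆) '' (Cs X n ×ˢ X) := by
      rintro g ⟨y, hy, x, hx, rfl⟩
      exact ⟨(y, x), ⟨hy, hx⟩, rfl⟩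
    exact ((ih.prod hX).image _).subset this

/-- the lower central series is the normal closure of the left normed commutators in generators -/
theorem lcs_le_normalClosure {X : Set G} (hX : closure X = ⊤) (n : ℕ) :
    (⊤ : Subgroup G).lowerCentralSeries n ≤ normalClosure (Cs X n) := by
  induction n with
  | zero =>
    rw [Subgroup.lowerCentralSeries_zero, ← hX]
    exact closure_le_normalClosure
  | succ n ih =>
    rw [Subgroup.lowerCentralSeries_succ, commutator_le]
    let D := normalClosure (Cs X (n + 1))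
    let q := QuotientGroup.mk' D
    have h1 : normalClosure (Cs X n) ≤ (center (G ⧸ D)).comap q := by
      apply normalClosure_le_normal
      intro y hy
      change q y ∈ center (G ⧸ D)
      rw [mem_center_iff]
      intro g
      obtain ⟨g, rfl⟩ := QuotientGroup.mk'_surjective D g
      have hg : g ∈ closure X := by rw [hX]; trivial
      induction hg using closure_induction with
      | mem x hx =>
        have h2 : ⁅y, x⁆ ∈ D := subset_normalClosure ⟨y, hy, x, hx, rfl⟩
        have h3 : ⁅q y, q x⁆ = 1 := by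
          rw [← map_commutatorElement]
          exact (QuotientGroup.eq_one_iff _).mpr h2
        exact (commutatorElement_eq_one_iff_mul_comm.mp h3).symm
      | one => simp
      | mul a b _ _ ha hb =>
        rw [map_mul, mul_assoc, hb, ← mul_assoc, ha, mul_assoc]
      | inv a _ ha =>
        rw [map_inv]
        have : (q a)⁻¹ * (q a * q y) * (q a)⁻¹ = (q a)⁻¹ * (q y * q a) * (q a)⁻¹ := by rw [ha]
        have e1 : (q a)⁻¹ * (q a * q y) * (q a)⁻¹ = q y * (q a)⁻¹ := by group
        have e2 : (q a)⁻¹ * (q y * q a) * (q a)⁻¹ = (q a)⁻¹ * q y := by group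
        rw [← e1, ← e2, this]
    intro y hy g _
    have h2 : q y ∈ center (G ⧸ D) := h1 (ih hy)
    have h3 : ⁅q y, q g⁆ = 1 :=
      commutatorElement_eq_one_iff_mul_comm.mpr (mem_center_iff.mp h2 (q g)).symm
    rw [← map_commutatorElement] at h3
    exact (QuotientGroup.eq_one_iff _).mp h3

end Pool.Agent.N73.Dir
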