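import Pool.Agent.N73.Dir.Res

set_option autoImplicit false

/-! Generic generating tuples over a finite quotient. -/

namespace Pool.Agent.N73.Dir

open Subgroup
open scoped commutatorElement

variable {H : Type*} [Group H] {F : Type*} [Group F]

/-- A surjective homomorphism whose kernel is torsion-free nilpotent. -/
structure Good (π : H →* F) : Prop where
  surj : Function.Surjective π
  nil : Group.IsNilpotent π.ker
  tf : TF π.ker

/-- `h` lies over `f` -/
def Over {I : Type*} (π : H →* F) (f : I → F) (h : I → H) : Prop := ∀ i, π (h i) = f i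

theorem Over.lift {I : Type*} {π : H →* F} {f : I → F} {h : I → H} (hh : Over π f h)
    (w : FreeGroup I) : π (FreeGroup.lift h w) = FreeGroup.lift f w := by
  have : π.comp (FreeGroup.lift h) = FreeGroup.lift f := by
    ext i
    simpa using hh i
  exact DFunLike.congr_fun this w

theorem lift_congr {I : Type*} {Q : Subgroup H} [Q.Normal] {h h' : I → H}
    (hh : ∀ i, (h i)⁻¹ * h' i ∈ Q) (w : FreeGroup I) :
    (FreeGroup.lift h w)⁻¹ * FreeGroup.lift h' w ∈ Q := by
  have h1 : (QuotientGroup.mk' Q).comp (FreeGroup.lift h) =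
      (QuotientGroup.mk' Q).comp (FreeGroup.lift h') := by
    ext i
    simpa [QuotientGroup.eq] using hh i
  have h2 := DFunLike.congr_fun h1 w
  exact QuotientGroup.eq.mp h2

theorem crt {K Q : Subgroup H} {y : H} {M M' : ℕ} (hM : y ^ M ∈ K) (hM' : y ^ M' ∈ Q)
    (hc : Nat.Coprime M M') : ∃ k ∈ K, ∃ q ∈ Q, y = k * q := by
  have hb := Nat.gcd_eq_gcd_ab M M'
  rw [Nat.Coprime] at hc
  rw [hc] at hb
  refine ⟨(y ^ M) ^ (Nat.gcdA M M'), zpow_mem hM _, (y ^ M') ^ (Nat.gcdB M M'), zpow_mem hM' _, ?_⟩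
  rw [← zpow_natCast, ← zpow_natCast, ← zpow_mul, ← zpow_mul, ← zpow_add, ← hb]
  simp

theorem exists_prime_coprime (M : ℕ) (hM : 0 < M) : ∃ p : ℕ, p.Prime ∧ Nat.Coprime M p := by
  obtain ⟨p, hp, hpp⟩ := Nat.exists_infinite_primes (M + 1)
  refine ⟨p, hpp, ?_⟩
  rw [Nat.coprime_comm, Nat.Prime.coprime_iff_not_dvd hpp]
  intro h
  have := Nat.le_of_dvd hM h
  omega

/-- Simultaneous non-vanishing, in an open form, with a congruence condition. -/
theorem simul [Group.FG H] {I : Type*} [DecidableEq (FreeGroup I)] (π : H →* F)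
    (hfin : π.ker.FiniteIndex) (hπ : Good π)
    (f : I → F) (W : Finset (FreeGroup I)) :
    (∀ w ∈ W, ∃ g, Over π f g ∧ FreeGroup.lift g w ≠ 1) →
    ∀ (a : I → H), Over π f a → ∀ (K₀ : Subgroup H), K₀.Normal → K₀ ≤ π.ker →
    ∀ M : ℕ, 0 < M → (∀ y ∈ π.ker, y ^ M ∈ K₀) →
    ∃ h, Over π f h ∧ (∀ i, (a i)⁻¹ * h i ∈ K₀) ∧ ∃ K' : Subgroup H, K'.Normal ∧ K' ≤ π.ker ∧
      (∃ M' : ℕ, 0 < M' ∧ ∀ y ∈ π.ker, y ^ M' ∈ K') ∧
      ∀ h'', Over π f h'' → (∀ i, (h i)⁻¹ * h'' i ∈ K') → ∀ w ∈ W, FreeGroup.lift h'' w ≠ 1 := by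
  induction W using Finset.induction_on with
  | empty =>
    intro _ a ha K₀ hK hle M hM hMK
    exact ⟨a, ha, fun i => by simp, π.ker, inferInstance, le_rfl, ⟨1, one_pos, fun y hy => by simpa using hy⟩,
      fun _ _ _ w hw => by simp at hw⟩
  | insert w₀ W hw₀ ih =>
    intro hW a ha K₀ hK hle M hM hMK
    obtain ⟨h', hh', hah', K₁', hK₁n, hK₁le, ⟨M₁, hM₁, hMK₁⟩, hopen⟩ :=
      ih (fun w hw => hW w (Finset.mem_insert_of_mem hw)) a ha K₀ hK hle M hM hMK
    obtain ⟨g, hg, hgw⟩ := hW w₀ (Finset.mem_insert_self _ _)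
    by_cases hz : FreeGroup.lift g w₀ ∈ π.ker
    · obtain ⟨p, hpp, hcop⟩ := exists_prime_coprime (M * M₁) (Nat.mul_pos hM hM₁)
      have : Fact p.Prime := ⟨hpp⟩
      obtain ⟨Q, hQn, hQle, hzQ, -, e, hQe⟩ := residual_rel p H π.ker hπ.nil hπ.tf _ hz hgw
      have hMM : ∀ y ∈ π.ker, y ^ (M * M₁) ∈ K₀ ⊓ K₁' := by
        intro y hy
        refine ⟨?_, ?_⟩
        · rw [pow_mul]; exact pow_mem (hMK y hy) _
        · rw [mul_comm, pow_mul]; exact pow_mem (hMK₁ y hy) _
      have hy : ∀ i, (h' i)⁻¹ * g i ∈ π.ker := by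
        intro i
        rw [MonoidHom.mem_ker, map_mul, map_inv, hh' i, hg i, inv_mul_cancel]
      choose k hk q hq hkq using fun i => crt (hMM _ (hy i)) (hQe _ (hy i)) (hcop.pow_right e)
      have hgi : ∀ i, g i = h' i * k i * q i := by
        intro i
        rw [mul_assoc, ← hkq i, mul_inv_cancel_left]
      refine ⟨fun i => h' i * k i, ?_, ?_, K₁' ⊓ Q, inferInstance, inf_le_left.trans hK₁le,
        ⟨M₁ * p ^ e, Nat.mul_pos hM₁ (pow_pos hpp.pos e), ?_⟩, ?_⟩
      · intro i
        have : k i ∈ π.ker := hle (hk i).1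
        rw [map_mul, MonoidHom.mem_ker.mp this, mul_one]
        exact hh' i
      · intro i
        rw [← mul_assoc]
        exact mul_mem (hah' i) (hk i).1
      · intro y hy
        refine ⟨?_, ?_⟩
        · rw [pow_mul]; exact pow_mem (hMK₁ y hy) _
        · rw [mul_comm, pow_mul]; exact pow_mem (hQe y hy) _
      · intro h'' hh'' hcong w hw
        rcases Finset.mem_insert.mp hw with rfl | hw
        · have h1 : ∀ i, (g i)⁻¹ * h'' i ∈ Q := by
            intro i
            have h2 := (hcong i).2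
            have : (g i)⁻¹ * h'' i = (q i)⁻¹ * ((h' i * k i)⁻¹ * h'' i) := by
              rw [hgi i]; group
            rw [this]
            exact mul_mem (inv_mem (hq i)) h2
          have h2 := lift_congr h1 w
          intro h3
          rw [h3, mul_one] at h2
          exact hzQ (inv_mem_iff.mp h2)
        · apply hopen h'' hh'' _ w hw
          intro i
          have : (h' i)⁻¹ * h'' i = k i * ((h' i * k i)⁻¹ * h'' i) := by group
          rw [this]
          exact mul_mem (hk i).2 (hcong i).1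
    · refine ⟨h', hh', hah', K₁', hK₁n, hK₁le, ⟨M₁, hM₁, hMK₁⟩, ?_⟩
      intro h'' hh'' hcong w hw
      rcases Finset.mem_insert.mp hw with rfl | hw
      · intro h3
        apply hz
        rw [MonoidHom.mem_ker, hg.lift, ← hh''.lift, h3, map_one]
      · exact hopen h'' hh'' hcong w hw

/-- one prime, finitely many elements -/
theorem residual_finset [Group.FG H] (π : H →* F) (hfin : π.ker.FiniteIndex) (hπ : Good π)
    (p : ℕ) [hp : Fact p.Prime] (Z : Finset H) (hZ : ∀ z ∈ Z, z ≠ 1) :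
    ∃ Q : Subgroup H, Q.Normal ∧ Q ≤ π.ker ∧ (∀ z ∈ Z, z ∉ Q) ∧
      ∃ e : ℕ, ∀ x ∈ π.ker, x ^ (p ^ e) ∈ Q := by
  classical
  induction Z using Finset.induction_on with
  | empty => exact ⟨π.ker, inferInstance, le_rfl, by simp, 0, fun x hx => by simpa using hx⟩
  | insert z Z _ ih =>
    obtain ⟨Q, h1, h2, h3, e, h4⟩ := ih fun z hz => hZ z (Finset.mem_insert_of_mem hz)
    by_cases hz : z ∈ π.ker
    · obtain ⟨Q', h1', h2', h3', -, e', h4'⟩ := residual_rel p H π.ker hπ.nil hπ.tf z hz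
        (hZ z (Finset.mem_insert_self _ _))
      refine ⟨Q ⊓ Q', inferInstance, inf_le_left.trans h2, ?_, e + e', ?_⟩
      · intro y hy hyQ
        rcases Finset.mem_insert.mp hy with rfl | hy
        · exact h3' hyQ.2
        · exact h3 y hy hyQ.1
      · intro x hx
        refine ⟨?_, ?_⟩
        · rw [pow_add, pow_mul]; exact pow_mem (h4 x hx) _
        · rw [pow_add, mul_comm, pow_mul]; exact pow_mem (h4' x hx) _
    · refine ⟨Q, h1, h2, ?_, e, h4⟩
      intro y hy hyQ
      rcases Finset.mem_insert.mp hy with rfl | hy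
      · exact hz (h2 hyQ)
      · exact h3 y hy hyQ

/-- the index type -/
abbrev Ix (m : ℕ) (F : Type*) := Fin m ⊕ (Fin m ⊕ F)

/-- the base tuple: `2 m` variables over `1`, one variable over each element of `F` -/
def base (m : ℕ) (F : Type*) [Group F] : Ix m F → F
  | Sum.inl _ => 1
  | Sum.inr (Sum.inl _) => 1
  | Sum.inr (Sum.inr φ) => φ

/-- Existence of generic generating tuples. -/
theorem generic [Group.FG H] (π : H →* F) (hfin : π.ker.FiniteIndex) (hπ : Good π) (m : ℕ)
    (x : Fin m → H) (hx : closure (Set.range x) = π.ker) (W : Finset (FreeGroup (Ix m F)))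
    (hW : ∀ w ∈ W, ∃ g, Over π (base m F) g ∧ FreeGroup.lift g w ≠ 1) :
    ∃ h, Over π (base m F) h ∧ closure (Set.range h) = ⊤ ∧ ∀ w ∈ W, FreeGroup.lift h w ≠ 1 := by
  classical
  have hxi : ∀ i, x i ∈ π.ker := fun i => hx ▸ Subgroup.subset_closure ⟨i, rfl⟩
  choose σ hσ using hπ.surj
  -- the base point
  let a : Ix m F → H := fun i => match i with
    | Sum.inl i => x i
    | Sum.inr (Sum.inl _) => 1
    | Sum.inr (Sum.inr φ) => σ φ
  have ha : Over π (base m F) a := by
    rintro (i | i | φ)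
    · exact hxi i
    · exact map_one π
    · exact hσ φ
  -- squares
  let K₀ : Subgroup H := closure ((fun y => y ^ 2) '' (π.ker : Set H))
  have hK₀n : K₀.Normal := by
    constructor
    intro n hn g
    induction hn using closure_induction with
    | mem y hy =>
      obtain ⟨y, hy, rfl⟩ := hy
      apply Subgroup.subset_closure
      refine ⟨g * y * g⁻¹, (inferInstance : π.ker.Normal).conj_mem y hy g, ?_⟩
      exact conj_pow
    | one => simp
    | mul y z _ _ hy hz =>
      have : g * (y * z) * g⁻¹ = (g * y * g⁻¹) * (g * z * g⁻¹) := by group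
      rw [this]; exact mul_mem hy hz
    | inv y _ hy =>
      have : g * y⁻¹ * g⁻¹ = (g * y * g⁻¹)⁻¹ := by group
      rw [this]; exact inv_mem hy
  have hK₀le : K₀ ≤ π.ker := by
    rw [closure_le]
    rintro _ ⟨y, hy, rfl⟩
    exact pow_mem hy 2
  obtain ⟨h₁, hh₁, hcong, K', hK'n, hK'le, -, hopen⟩ := simul π hfin hπ (base m F) W hW a ha K₀ hK₀n
    hK₀le 2 two_pos (fun y hy => Subgroup.subset_closure ⟨y, hy, rfl⟩)
  have hne : ∀ w ∈ W, FreeGroup.lift h₁ w ≠ 1 := hopen h₁ hh₁ (fun i => by simp)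
  -- the subgroup generated by the first block modulo commutators
  let u : Fin m → H := fun i => h₁ (Sum.inl i)
  have hu : ∀ i, u i ∈ π.ker := fun i => hh₁ (Sum.inl i)
  have hfgN : Group.FG π.ker := π.ker.fg_of_index_ne_zero
  let u' : Fin m → π.ker := fun i => ⟨u i, hu i⟩
  let K : Subgroup π.ker := closure (Set.range u') ⊔ _root_.commutator π.ker
  have hKc : _root_.commutator π.ker ≤ K := le_sup_right
  have hKn : K.Normal := by
    constructor
    intro n hn g
    have h1 : ⁅g, n⁆ ∈ K := hKc (commutator_mem_commutator trivial trivial)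
    have h2 : g * n * g⁻¹ = ⁅g, n⁆ * n := by rw [commutatorElement_def]; group
    rw [h2]
    exact mul_mem h1 hn
  have hδ : ∃ δ : ℕ, 0 < δ ∧ ∀ y : π.ker, y ^ δ ∈ K := by
    let CG : CommGroup (π.ker ⧸ K) :=
      { (inferInstance : Group (π.ker ⧸ K)) with
        mul_comm := by
          intro c d
          obtain ⟨c, rfl⟩ := QuotientGroup.mk_surjective c
          obtain ⟨d, rfl⟩ := QuotientGroup.mk_surjective d
          apply commutatorElement_eq_one_iff_mul_comm.mp
          have : ⁅c, d⁆ ∈ K := hKc (commutator_mem_commutator trivial trivial)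
          exact (QuotientGroup.eq_one_iff _).mpr this }
    have hFG : @Group.FG (π.ker ⧸ K) CG.toGroup := (inferInstance : Group.FG (π.ker ⧸ K))
    obtain ⟨δ, h1, h2⟩ := @exponent_of_pdiv (π.ker ⧸ K) CG hFG 2 le_rfl (by
      have key : ∀ c : π.ker, c ∈ closure (Set.range fun i => (⟨x i, hxi i⟩ : π.ker)) →
          ∃ b : π.ker ⧸ K, (c : π.ker ⧸ K) = @HPow.hPow _ ℕ _ (@instHPow _ ℕ CG.toMonoid.toPow) b 2 := by
        intro c hc
        induction hc using closure_induction with
        | mem c hc =>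
          obtain ⟨i, rfl⟩ := hc
          -- u i = x i * k with k in K₀
          have h1 : (x i)⁻¹ * u i ∈ K₀ := hcong (Sum.inl i)
          have h2 : ∀ k ∈ K₀, ∀ hk : k ∈ π.ker, ∃ b : π.ker ⧸ K,
              ((⟨k, hk⟩ : π.ker) : π.ker ⧸ K) = @HPow.hPow _ ℕ _ (@instHPow _ ℕ CG.toMonoid.toPow) b 2 := by
            intro k hk
            induction hk using closure_induction with
            | mem k hk =>
              obtain ⟨y, hy, rfl⟩ := hk
              intro hk
              exact ⟨((⟨y, hy⟩ : π.ker) : π.ker ⧸ K), rfl⟩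
            | one => intro _; exact ⟨1, (@one_pow _ CG.toMonoid 2).symm⟩
            | mul k l hk hl ihk ihl =>
              intro hkl
              obtain ⟨b, hb⟩ := ihk (hK₀le hk)
              obtain ⟨c, hc⟩ := ihl (hK₀le hl)
              refine ⟨b * c, ?_⟩
              rw [@mul_pow _ CG.toCommMonoid b c 2, ← hb, ← hc]
              rfl
            | inv k hk ihk =>
              intro _
              obtain ⟨b, hb⟩ := ihk (hK₀le hk)
              refine ⟨b⁻¹, ?_⟩
              rw [@inv_pow _ CG.toGroup.toDivisionMonoid b 2, ← hb]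
              rfl
          obtain ⟨b, hb⟩ := h2 _ h1 (hK₀le h1)
          refine ⟨b⁻¹, ?_⟩
          rw [@inv_pow _ CG.toGroup.toDivisionMonoid b 2, ← hb]
          have h3 : (u' i : π.ker ⧸ K) = 1 := by
            rw [QuotientGroup.eq_one_iff]
            exact (le_sup_left : closure (Set.range u') ≤ K) (Subgroup.subset_closure ⟨i, rfl⟩)
          have h4 : (⟨(x i)⁻¹ * u i, hK₀le h1⟩ : π.ker) = (⟨x i, hxi i⟩ : π.ker)⁻¹ * u' i := rfl
          rw [h4, QuotientGroup.mk_mul, h3, mul_one, QuotientGroup.mk_inv, inv_inv]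
        | one => exact ⟨1, (@one_pow _ CG.toMonoid 2).symm⟩
        | mul c d _ _ hc hd =>
          obtain ⟨b, hb⟩ := hc
          obtain ⟨b', hb'⟩ := hd
          refine ⟨b * b', ?_⟩
          rw [@mul_pow _ CG.toCommMonoid b b' 2, ← hb, ← hb']
          rfl
        | inv c _ hc =>
          obtain ⟨b, hb⟩ := hc
          refine ⟨b⁻¹, ?_⟩
          rw [@inv_pow _ CG.toGroup.toDivisionMonoid b 2, ← hb]
          rfl
      intro c
      obtain ⟨c, rfl⟩ := QuotientGroup.mk_surjective c
      apply key c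
      have h5 : closure (Set.range fun i => (⟨x i, hxi i⟩ : π.ker)) = ⊤ := by
        rw [← map_subtype_inj, MonoidHom.map_closure, ← Set.range_comp, ← MonoidHom.range_eq_map,
          range_subtype]
        exact hx
      rw [h5]; trivial)
    refine ⟨δ, h1, fun y => ?_⟩
    rw [← QuotientGroup.eq_one_iff]
    exact h2 y
  obtain ⟨δ, hδ0, hδ⟩ := hδ
  obtain ⟨p, hpp, hcop⟩ := exists_prime_coprime δ hδ0
  have : Fact p.Prime := ⟨hpp⟩
  obtain ⟨Q, hQn, hQle, hQz, e, hQe⟩ := residual_finset π hfin hπ p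
    (W.image fun w => FreeGroup.lift h₁ w) (by
      intro z hz
      obtain ⟨w, hw, rfl⟩ := Finset.mem_image.mp hz
      exact hne w hw)
  have hy : ∀ i, (x i)⁻¹ * h₁ (Sum.inr (Sum.inl i)) ∈ π.ker := fun i =>
    mul_mem (inv_mem (hxi i)) (hh₁ (Sum.inr (Sum.inl i)))
  choose k hk q hq hkq using fun i => crt (K := K.map π.ker.subtype) (Q := Q)
    (y := (x i)⁻¹ * h₁ (Sum.inr (Sum.inl i))) (M := δ) (M' := p ^ e)
    ⟨⟨_, hy i⟩ ^ δ, hδ _, rfl⟩ (hQe _ (hy i)) (hcop.pow_right e)
  have hkN : ∀ i, k i ∈ π.ker := fun i => map_subtype_le K (hk i)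
  let h : Ix m F → H := fun i => match i with
    | Sum.inl i => u i
    | Sum.inr (Sum.inl i) => x i * k i
    | Sum.inr (Sum.inr φ) => h₁ (Sum.inr (Sum.inr φ))
  have hhQ : ∀ i, (h₁ i)⁻¹ * h i ∈ Q := by
    rintro (i | i | φ)
    · change (h₁ (Sum.inl i))⁻¹ * h₁ (Sum.inl i) ∈ Q
      simp
    · change (h₁ (Sum.inr (Sum.inl i)))⁻¹ * (x i * k i) ∈ Q
      have : h₁ (Sum.inr (Sum.inl i)) = x i * k i * q i := by
        rw [mul_assoc, ← hkq i, mul_inv_cancel_left]
      rw [this]
      have : (x i * k i * q i)⁻¹ * (x i * k i) = (q i)⁻¹ := by group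
      rw [this]
      exact inv_mem (hq i)
    · change (h₁ (Sum.inr (Sum.inr φ)))⁻¹ * h₁ (Sum.inr (Sum.inr φ)) ∈ Q
      simp
  have hhover : Over π (base m F) h := by
    rintro (i | i | φ)
    · exact hu i
    · exact mul_mem (hxi i) (hkN i)
    · exact hh₁ (Sum.inr (Sum.inr φ))
  refine ⟨h, hhover, ?_, ?_⟩
  · -- generation
    let S := closure (Set.range h)
    have hS : (S.subgroupOf π.ker) = ⊤ := by
      have := hπ.nil
      apply eq_top_of_sup_commutator
      rw [eq_top_iff]
      have hKS : K ≤ S.subgroupOf π.ker ⊔ _root_.commutator π.ker := by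
        refine sup_le ?_ le_sup_right
        rw [closure_le]
        rintro _ ⟨i, rfl⟩
        apply (le_sup_left : S.subgroupOf π.ker ≤ _)
        exact Subgroup.subset_closure ⟨Sum.inl i, rfl⟩
      have h5 : closure (Set.range fun i => (⟨x i, hxi i⟩ : π.ker)) = ⊤ := by
        rw [← map_subtype_inj, MonoidHom.map_closure, ← Set.range_comp, ← MonoidHom.range_eq_map,
          range_subtype]
        exact hx
      rw [← h5, closure_le]
      rintro _ ⟨i, rfl⟩
      have h6 : (⟨x i * k i, mul_mem (hxi i) (hkN i)⟩ : π.ker) ∈ S.subgroupOf π.ker :=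
        Subgroup.subset_closure ⟨Sum.inr (Sum.inl i), rfl⟩
      have h7 : (⟨k i, hkN i⟩ : π.ker) ∈ K := by
        obtain ⟨k', hk', hkk'⟩ := hk i
        have : k' = ⟨k i, hkN i⟩ := Subtype.ext hkk'
        exact this ▸ hk'
      have h8 : (⟨x i, hxi i⟩ : π.ker) = ⟨x i * k i, mul_mem (hxi i) (hkN i)⟩ * (⟨k i, hkN i⟩)⁻¹ := by
        ext
        simp
      change (⟨x i, hxi i⟩ : π.ker) ∈ S.subgroupOf π.ker ⊔ _root_.commutator π.ker
      rw [h8]
      exact mul_mem ((le_sup_left : S.subgroupOf π.ker ≤ _) h6) (inv_mem (hKS h7))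
    have hNS : π.ker ≤ S := by
      intro y hy
      have : (⟨y, hy⟩ : π.ker) ∈ S.subgroupOf π.ker := by rw [hS]; trivial
      exact this
    rw [eq_top_iff]
    intro y _
    have h9 : h (Sum.inr (Sum.inr (π y))) ∈ S :=
      Subgroup.subset_closure (Set.mem_range_self (Sum.inr (Sum.inr (π y))))
    have h10 : (h (Sum.inr (Sum.inr (π y))))⁻¹ * y ∈ π.ker := by
      have h11 : π (h (Sum.inr (Sum.inr (π y)))) = π y := hhover (Sum.inr (Sum.inr (π y)))
      rw [MonoidHom.mem_ker, map_mul, map_inv, h11, inv_mul_cancel]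
    have : y = h (Sum.inr (Sum.inr (π y))) * ((h (Sum.inr (Sum.inr (π y))))⁻¹ * y) := by group
    rw [this]
    exact mul_mem h9 (hNS h10)
  · intro w hw h3
    have h2 := lift_congr hhQ w
    rw [h3, mul_one] at h2
    exact hQz _ (Finset.mem_image_of_mem _ hw) (inv_mem_iff.mp h2)

end Pool.Agent.N73.Dir
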