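import Pool.Agent.N73.Dir.Gen

set_option autoImplicit false

/-! Limits of marked groups: transport of homomorphisms to a finite group. -/

namespace Pool.Agent.N73.Dir

open Subgroup
open scoped commutatorElement

/-- Every finite set of words is decided on `t` as on some generating tuple `s` of `G`
with property `P`. -/
def Appr {ι : Type*} {G H : Type*} [Group G] [Group H] (P : (ι → G) → Prop) (t : ι → H) : Prop :=
  ∀ W : Finset (FreeGroup ι), ∃ s : ι → G, P s ∧ closure (Set.range s) = ⊤ ∧
    ∀ w ∈ W, (FreeGroup.lift s w = 1 ↔ FreeGroup.lift t w = 1)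

theorem Appr.mono {ι : Type*} {G H : Type*} [Group G] [Group H] {P Q : (ι → G) → Prop} {t : ι → H}
    (h : Appr P t) (hPQ : ∀ s, P s → Q s) : Appr Q t := by
  intro W
  obtain ⟨s, h1, h2, h3⟩ := h W
  exact ⟨s, hPQ s h1, h2, h3⟩

theorem Appr.pigeon {ι : Type*} [Finite ι] {G H F : Type*} [Group G] [Group H] [Group F] [Finite F]
    {P : (ι → G) → Prop} {t : ι → H} (h : Appr P t) (ρ : G →* F) :
    ∃ q : ι → F, Appr (fun s => P s ∧ Over ρ q s) t := by
  classical
  by_contra hne
  simp only [Appr] at hne
  push Not at hne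
  choose W hW using hne
  have := Fintype.ofFinite (ι → F)
  obtain ⟨s, h1, h2, h3⟩ := h (Finset.univ.biUnion W)
  obtain ⟨w, hw, h4⟩ := hW (fun i => ρ (s i)) s ⟨h1, fun i => rfl⟩ h2
  have h5 := h3 w (Finset.mem_biUnion.mpr ⟨_, Finset.mem_univ _, hw⟩)
  tauto

theorem lift_surjective {ι : Type*} {H : Type*} [Group H] {t : ι → H}
    (ht : closure (Set.range t) = ⊤) : Function.Surjective (FreeGroup.lift t) := by
  rw [← MonoidHom.range_eq_top, FreeGroup.range_lift_eq_closure, ht]

theorem hom_eq {ι : Type*} {H F : Type*} [Group H] [Group F] {t : ι → H}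
    (ht : closure (Set.range t) = ⊤) {α β : H →* F} (h : ∀ i, α (t i) = β (t i)) : α = β := by
  have h1 : α.comp (FreeGroup.lift t) = β.comp (FreeGroup.lift t) := by
    ext i
    simpa using h i
  ext x
  obtain ⟨w, rfl⟩ := lift_surjective ht x
  exact DFunLike.congr_fun h1 w

/-- the induced homomorphism on the limit -/
theorem Appr.hom {ι : Type*} {G H F : Type*} [Group G] [Group H] [Group F]
    {t : ι → H} (ht : closure (Set.range t) = ⊤) {ρ : G →* F} {q : ι → F}
    (h : Appr (Over ρ q) t) : ∃ ρH : H →* F, ∀ i, ρH (t i) = q i := by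
  have hker : (FreeGroup.lift t).ker ≤ (FreeGroup.lift q).ker := by
    intro w hw
    obtain ⟨s, h1, -, h3⟩ := h {w}
    have h4 : FreeGroup.lift s w = 1 := (h3 w (Finset.mem_singleton_self w)).mpr hw
    rw [MonoidHom.mem_ker, ← h1.lift, h4, map_one]
  let ρH := (FreeGroup.lift t).liftOfSurjective (lift_surjective ht) ⟨FreeGroup.lift q, hker⟩
  refine ⟨ρH, fun i => ?_⟩
  have h1 : ρH (FreeGroup.lift t (FreeGroup.of i)) = FreeGroup.lift q (FreeGroup.of i) :=
    (FreeGroup.lift t).liftOfRightInverse_comp_apply _ _ ⟨FreeGroup.lift q, hker⟩ _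
  simpa using h1

theorem Appr.surj {ι : Type*} {G H F : Type*} [Group G] [Group H] [Group F]
    {t : ι → H} {ρ : G →* F} {q : ι → F} (hρ : Function.Surjective ρ)
    (h : Appr (Over ρ q) t) {ρH : H →* F} (hρH : ∀ i, ρH (t i) = q i) : Function.Surjective ρH := by
  obtain ⟨s, h1, h2, -⟩ := h ∅
  rw [← MonoidHom.range_eq_top, eq_top_iff]
  have h3 : (closure (Set.range s)).map ρ = ⊤ := by
    rw [h2]; exact map_top_of_surjective ρ hρ
  rw [← h3, MonoidHom.map_closure, closure_le]
  rintro _ ⟨_, ⟨i, rfl⟩, rfl⟩
  rw [h1 i]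
  exact ⟨t i, hρH i⟩

theorem transport {ι : Type*} [Finite ι] {G H F : Type*} [Group G] [Group H] [Group F]
    [Group.FG G] [Finite F] (π : G →* F) (hπ : Good π) (t : ι → H)
    (ht : closure (Set.range t) = ⊤) (hA : Appr (G := G) (fun _ => True) t) :
    ∃ πH : H →* F, Good πH ∧ ∀ (I : Type) (f : I → F) (w : FreeGroup I),
      (∀ h, Over πH f h → FreeGroup.lift h w = 1) ↔ (∀ g, Over π f g → FreeGroup.lift g w = 1) := by
  obtain ⟨q, hq⟩ := hA.pigeon π
  have hq : Appr (Over π q) t := hq.mono fun s hs => hs.2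
  obtain ⟨πH, hπH⟩ := hq.hom ht
  have hsurj := hq.surj hπ.surj hπH
  have hlift : ∀ w, πH (FreeGroup.lift t w) = FreeGroup.lift q w := by
    intro w
    exact (show Over πH q t from hπH).lift w
  refine ⟨πH, ⟨hsurj, ?_, ?_⟩, ?_⟩
  · -- nilpotent
    have hnil := hπ.nil
    rw [Subgroup.isNilpotent_iff_lowerCentralSeries] at hnil ⊢
    obtain ⟨c, hc⟩ := hnil
    refine ⟨c, ?_⟩
    let P := (FreeGroup.lift q).ker
    have hP : πH.ker = P.map (FreeGroup.lift t) := by
      ext x
      constructor
      · intro hx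
        obtain ⟨w, rfl⟩ := lift_surjective ht x
        refine ⟨w, ?_, rfl⟩
        change FreeGroup.lift q w = 1
        rw [← hlift]; exact hx
      · rintro ⟨w, hw, rfl⟩
        rw [MonoidHom.mem_ker, hlift]
        exact hw
    rw [hP, ← Subgroup.map_lowerCentralSeries, eq_bot_iff]
    rintro _ ⟨w, hw, rfl⟩
    obtain ⟨s, h1, -, h3⟩ := hq {w}
    rw [mem_bot]
    apply (h3 w (Finset.mem_singleton_self w)).mp
    have h4 : FreeGroup.lift s w ∈ (P.lowerCentralSeries c).map (FreeGroup.lift s) := ⟨w, hw, rfl⟩
    rw [Subgroup.map_lowerCentralSeries] at h4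
    have h5 : P.map (FreeGroup.lift s) ≤ π.ker := by
      rintro _ ⟨v, hv, rfl⟩
      rw [MonoidHom.mem_ker, h1.lift]
      exact hv
    have h6 : FreeGroup.lift s w ∈ π.ker.lowerCentralSeries c :=
      Subgroup.lowerCentralSeries_mono c h5 h4
    rw [hc] at h6
    exact h6
  · -- torsion-free
    intro x hx n hn hxn
    obtain ⟨w, rfl⟩ := lift_surjective ht x
    classical
    obtain ⟨s, h1, -, h3⟩ := hq {w, w ^ n}
    apply (h3 w (by simp)).mp
    have h4 : FreeGroup.lift s w ∈ π.ker := by
      rw [MonoidHom.mem_ker, h1.lift, ← hlift]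
      exact hx
    apply hπ.tf _ h4 n hn
    rw [← map_pow]
    apply (h3 (w ^ n) (by simp)).mpr
    rw [map_pow, hxn]
  · intro I f w
    constructor
    · intro hw g hg
      by_contra hz
      by_cases hzk : FreeGroup.lift g w ∈ π.ker
      · have hfin : π.ker.FiniteIndex := inferInstance
        have : Fact (Nat.Prime 2) := ⟨Nat.prime_two⟩
        obtain ⟨Q, hQn, hQle, hzQ, hQfi, -⟩ := residual_rel 2 G π.ker hπ.nil hπ.tf _ hzk hz
        let ρ := QuotientGroup.mk' Q
        obtain ⟨q', hq'⟩ := hq.pigeon ρ
        have hq'' : Appr (Over ρ q') t := hq'.mono fun s hs => hs.2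
        obtain ⟨ρH, hρH⟩ := hq''.hom ht
        have hρsurj := hq''.surj (QuotientGroup.mk'_surjective Q) hρH
        let ρbar : G ⧸ Q →* F := QuotientGroup.lift Q π hQle
        have hcomp : πH = ρbar.comp ρH := by
          apply hom_eq ht
          intro i
          obtain ⟨s, ⟨h1, h2⟩, -⟩ := hq' ∅
          rw [hπH, MonoidHom.comp_apply, hρH, ← h2 i, ← h1 i]
          rfl
        choose h hh using fun i => hρsurj (ρ (g i))
        have hover : Over πH f h := by
          intro i
          rw [hcomp, MonoidHom.comp_apply, hh, ← hg i]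
          rfl
        have h5 := hw h hover
        have h6 : Over ρH (fun i => ρ (g i)) h := hh
        have h7 := h6.lift w
        rw [h5, map_one] at h7
        have h8 : Over ρ (fun i => ρ (g i)) g := fun i => rfl
        rw [← h8.lift] at h7
        exact hzQ ((QuotientGroup.eq_one_iff _).mp h7.symm)
      · choose h hh using fun i => hsurj (f i)
        have h1 : Over πH f h := hh
        have h2 := hw h h1
        apply hzk
        rw [MonoidHom.mem_ker, hg.lift, ← h1.lift, h2, map_one]
    · intro hw h hh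
      choose v hv using fun i => lift_surjective ht (h i)
      have h1 : ∀ (K : Type _) [Group K] (s : ι → K), FreeGroup.lift s (FreeGroup.lift v w) =
          FreeGroup.lift (fun i => FreeGroup.lift s (v i)) w := by
        intro K _ s
        have : (FreeGroup.lift s).comp (FreeGroup.lift v) =
            FreeGroup.lift (fun i => FreeGroup.lift s (v i)) := by
          ext i; simp
        exact DFunLike.congr_fun this w
      obtain ⟨s, hs, -, h3⟩ := hq {FreeGroup.lift v w}
      have h4 := (h3 _ (Finset.mem_singleton_self _))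
      have h5 : (FreeGroup.lift s) ((FreeGroup.lift v) w) = 1 := by
        rw [h1]
        apply hw
        intro i
        rw [hs.lift, ← hlift, hv]
        exact hh i
      have h6 := h4.mp h5
      have h7 : (FreeGroup.lift t) ((FreeGroup.lift v) w) =
          FreeGroup.lift (fun i => FreeGroup.lift t (v i)) w := by
        have : (FreeGroup.lift t).comp (FreeGroup.lift v) =
            FreeGroup.lift (fun i => FreeGroup.lift t (v i)) := by
          ext i; simp
        exact DFunLike.congr_fun this w
      rw [h7] at h6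
      simpa [hv] using h6

/-- A finitely generated virtually nilpotent group has a good homomorphism to a finite group. -/
theorem exists_good (G : Type) [Group G] [Group.FG G] (h : Group.IsVirtuallyNilpotent G) :
    ∃ (F : Type) (_ : Group F) (_ : Finite F) (π : G →* F), Good π := by
  obtain ⟨N₀, hnil, hfi⟩ := h
  have h1 : Group.IsNilpotent N₀.normalCore := by
    have : N₀.normalCore ≤ N₀ := normalCore_le _
    rw [Subgroup.isNilpotent_iff_lowerCentralSeries] at hnil ⊢
    obtain ⟨c, hc⟩ := hnil
    exact ⟨c, by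
      rw [eq_bot_iff, ← hc]
      exact Subgroup.lowerCentralSeries_mono c this⟩
  have h2 : Group.FG N₀.normalCore := (N₀.normalCore).fg_of_index_ne_zero
  obtain ⟨Q, hQn, hQfi, hQtf⟩ := exists_TF N₀.normalCore
  let Q1 : Subgroup G := Q.map N₀.normalCore.subtype
  have hle : Q1 ≤ N₀.normalCore := map_subtype_le Q
  have hQ1 : Q1.FiniteIndex := by
    refine ⟨?_⟩
    rw [← relIndex_mul_index hle]
    refine mul_ne_zero ?_ (finiteIndex_normalCore N₀).index_ne_zero
    have : Q1.relIndex N₀.normalCore = Q.index := by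
      rw [relIndex, subgroupOf]
      congr 1
      exact comap_map_eq_self_of_injective (subtype_injective _) Q
    rw [this]
    exact hQfi.index_ne_zero
  refine ⟨G ⧸ Q1.normalCore, inferInstance, inferInstance, QuotientGroup.mk' Q1.normalCore,
    QuotientGroup.mk'_surjective _, ?_, ?_⟩
  · rw [QuotientGroup.ker_mk']
    rw [Subgroup.isNilpotent_iff_lowerCentralSeries] at h1 ⊢
    obtain ⟨c, hc⟩ := h1
    exact ⟨c, by
      rw [eq_bot_iff, ← hc]
      exact Subgroup.lowerCentralSeries_mono c ((normalCore_le _).trans hle)⟩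
  · rw [QuotientGroup.ker_mk']
    intro x hx n hn hxn
    obtain ⟨y, hy, rfl⟩ := normalCore_le _ hx
    have h3 : y ^ n = 1 := Subtype.ext (by simpa using hxn)
    rw [hQtf y hy n hn h3]
    rfl

/-- virtual nilpotency passes to the groups that approximate a virtually nilpotent group -/
theorem vn_down {ι : Type*} [Finite ι] {G H : Type*} [Group G] [Group H] (t : ι → H)
    (ht : closure (Set.range t) = ⊤) (hA : Appr (G := G) (fun _ => True) t)
    (hH : Group.IsVirtuallyNilpotent H) : Group.IsVirtuallyNilpotent G := by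
  obtain ⟨N, hnil, hfi⟩ := hH
  rw [Subgroup.isNilpotent_iff_lowerCentralSeries] at hnil
  obtain ⟨c, hc⟩ := hnil
  let P : Subgroup (FreeGroup ι) := N.comap (FreeGroup.lift t)
  have hPfi : P.FiniteIndex := by
    refine ⟨?_⟩
    rw [index_comap_of_surjective N (lift_surjective ht)]
    exact hfi.index_ne_zero
  have hPfg : Group.FG P := P.fg_of_index_ne_zero
  obtain ⟨X, hX⟩ := hPfg.1
  have hfinite : (Subtype.val '' (Cs (X : Set P) c)).Finite :=
    (Cs_finite X.finite_toSet c).image _
  obtain ⟨s, -, h2, h3⟩ := hA hfinite.toFinset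
  refine ⟨P.map (FreeGroup.lift s), ?_, ?_⟩
  · rw [Subgroup.isNilpotent_iff_lowerCentralSeries]
    refine ⟨c, ?_⟩
    let ψ : P →* G := (FreeGroup.lift s).comp P.subtype
    have h4 : P.map (FreeGroup.lift s) = (⊤ : Subgroup P).map ψ := by
      rw [← Subgroup.map_map, ← MonoidHom.range_eq_map, range_subtype]
    rw [h4, ← Subgroup.map_lowerCentralSeries, eq_bot_iff, map_le_iff_le_comap]
    refine (lcs_le_normalClosure hX c).trans ?_
    have h5 : ((⊥ : Subgroup G).comap ψ).Normal := inferInstance
    apply normalClosure_le_normal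
    intro y hy
    change ψ y = 1
    have h6 : (y : FreeGroup ι) ∈ hfinite.toFinset := by
      rw [Set.Finite.mem_toFinset]
      exact ⟨y, hy, rfl⟩
    apply (h3 _ h6).mpr
    have h7 : ∀ n, ∀ y ∈ Cs (X : Set P) n, FreeGroup.lift t (y : FreeGroup ι) ∈
        N.lowerCentralSeries n := by
      intro n
      induction n with
      | zero => intro y _; exact y.2
      | succ n ih =>
        rintro _ ⟨y, hy, x, hx, rfl⟩
        have h8 : (FreeGroup.lift t) ((⁅y, x⁆ : P) : FreeGroup ι) =
            ⁅FreeGroup.lift t (y : FreeGroup ι), FreeGroup.lift t (x : FreeGroup ι)⁆ := by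
          rw [← map_commutatorElement]
          rfl
        rw [h8, Subgroup.lowerCentralSeries_succ]
        exact commutator_mem_commutator (ih y hy) x.2
    have h9 := h7 c y hy
    rw [hc] at h9
    exact h9
  · refine ⟨?_⟩
    have := index_map_dvd P (f := FreeGroup.lift s) (lift_surjective h2)
    exact ne_zero_of_dvd_ne_zero hPfi.index_ne_zero this

end Pool.Agent.N73.Dir
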