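import Pool.Agent.N73.Dir.Lim

set_option autoImplicit false

/-! The preorder `G ⪯ H` on finitely generated groups, by labelled balls of Cayley graphs, and its
translation into words. -/

namespace Pool.Agent.N73.Dir

open Subgroup

/-- The ball of radius `R` about the identity in the Cayley graph of `G` with respect to `S`: the
products of at most `R` factors each of which is in `S` or inverse to an element of `S`. -/
def ball {G : Type*} [Group G] (S : Set G) (R : ℕ) : Set G :=
  {g | ∃ l : List G, l.length ≤ R ∧ (∀ x ∈ l, x ∈ S ∨ x⁻¹ ∈ S) ∧ l.prod = g}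

theorem one_mem_ball {G : Type*} [Group G] (S : Set G) (R : ℕ) : (1 : G) ∈ ball S R :=
  ⟨[], by simp, by simp, by simp⟩

/-- The balls of radius `R` about the identity in `Cay(G,S)` and `Cay(H,T)` are isomorphic as
(rooted) graphs whose edges `x → x s` are labelled by `s ∈ S`, resp. by `T`, the labels being matched
via the bijection `e : S ≃ T`. -/
def SameBall {G H : Type*} [Group G] [Group H] (S : Set G) (T : Set H) (e : S ≃ T) (R : ℕ) : Prop :=
  ∃ φ : ball S R ≃ ball T R, (φ ⟨1, one_mem_ball S R⟩ : H) = 1 ∧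
    ∀ (x y : ball S R) (s : S), (x : G) * (s : G) = (y : G) ↔ (φ x : H) * (e s : H) = (φ y : H)

/-- `G ⪯ H`: there are a finite generating set `T` of `H`, finite generating sets `S 0, S 1, …` of `G`
and bijections `e n : S n ≃ T` such that for every `R` and all large `n` the labelled balls of radius
`R` in `Cay(G, S n)` and `Cay(H, T)` are isomorphic. -/
def Preceq (G H : Type*) [Group G] [Group H] : Prop :=
  ∃ T : Set H, T.Finite ∧ closure T = ⊤ ∧ ∃ (S : ℕ → Set G) (e : ∀ n, S n ≃ T),
    (∀ n, (S n).Finite ∧ closure (S n) = ⊤) ∧ ∀ R : ℕ, ∃ N : ℕ, ∀ n ≥ N, SameBall (S n) T (e n) R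

section words

variable {ι : Type*} {G : Type*} [Group G]

/-- value of a word in letters and inverse letters -/
def ev (s : ι → G) (L : List (ι × Bool)) : G :=
  (L.map fun x => cond x.2 (s x.1) (s x.1)⁻¹).prod

theorem ev_eq (s : ι → G) (L : List (ι × Bool)) : ev s L = FreeGroup.lift s (FreeGroup.mk L) :=
  (FreeGroup.lift_mk).symm

theorem ev_append (s : ι → G) (L L' : List (ι × Bool)) : ev s (L ++ L') = ev s L * ev s L' := by
  simp [ev]

theorem ev_nil (s : ι → G) : ev s ([] : List (ι × Bool)) = 1 := by simp [ev]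

theorem ev_single (s : ι → G) (i : ι) (b : Bool) : ev s [(i, b)] = cond b (s i) (s i)⁻¹ := by
  simp [ev]

theorem ev_invRev (s : ι → G) (L : List (ι × Bool)) : ev s (FreeGroup.invRev L) = (ev s L)⁻¹ := by
  rw [ev_eq, ev_eq, ← FreeGroup.inv_mk, map_inv]

theorem mem_ball_iff (s : ι → G) (R : ℕ) (g : G) :
    g ∈ ball (Set.range s) R ↔ ∃ L : List (ι × Bool), L.length ≤ R ∧ ev s L = g := by
  constructor
  · rintro ⟨l, hl, hls, rfl⟩
    have : ∃ L : List (ι × Bool), L.length = l.length ∧ ev s L = l.prod := by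
      clear hl
      induction l with
      | nil => exact ⟨[], rfl, by simp [ev]⟩
      | cons x l ih =>
        obtain ⟨L, h1, h2⟩ := ih fun y hy => hls y (List.mem_cons_of_mem _ hy)
        rcases hls x List.mem_cons_self with ⟨i, hi⟩ | ⟨i, hi⟩
        · refine ⟨(i, true) :: L, by simp [h1], ?_⟩
          rw [List.prod_cons, ← h2, ← hi]
          simp [ev]
        · refine ⟨(i, false) :: L, by simp [h1], ?_⟩
          rw [List.prod_cons, ← h2]
          simp [ev, hi]
    obtain ⟨L, h1, h2⟩ := this
    exact ⟨L, h1 ▸ hl, h2⟩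
  · rintro ⟨L, hL, rfl⟩
    refine ⟨L.map fun x => cond x.2 (s x.1) (s x.1)⁻¹, by simpa using hL, ?_, rfl⟩
    intro x hx
    obtain ⟨⟨i, b⟩, _, rfl⟩ := List.mem_map.mp hx
    cases b
    · right; simp
    · left; simp

end words

section twosided

variable {ι : Type*} {G H : Type*} [Group G] [Group H]

theorem agree_pair {s : ι → G} {t : ι → H} {M : ℕ}
    (h : ∀ L : List (ι × Bool), L.length ≤ M → (ev s L = 1 ↔ ev t L = 1))
    (L L' : List (ι × Bool)) (hL : L.length + L'.length ≤ M) :
    ev s L = ev s L' ↔ ev t L = ev t L' := by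
  have h1 := h (L ++ FreeGroup.invRev L') (by simpa [FreeGroup.invRev_length] using hL)
  rw [ev_append, ev_append, ev_invRev, ev_invRev, mul_inv_eq_one, mul_inv_eq_one] at h1
  exact h1

theorem sameBall_of_agree {T : Set H} {s : T → G} (hs : Function.Injective s) (R : ℕ)
    (h : ∀ L : List (T × Bool), L.length ≤ 2 * R + 1 → (ev s L = 1 ↔ ev (Subtype.val : T → H) L = 1)) :
    SameBall (Set.range s) T (Equiv.ofInjective s hs).symm R := by
  set t : T → H := Subtype.val with ht
  have hT : Set.range t = T := Subtype.range_coe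
  have hb := fun x : ball (Set.range s) R => (mem_ball_iff s R x).mp x.2
  choose L hL1 hL2 using hb
  have hmem : ∀ x, ev t (L x) ∈ ball T R := by
    intro x
    have := (mem_ball_iff t R (ev t (L x))).mpr ⟨L x, hL1 x, rfl⟩
    rwa [hT] at this
  let φ : ball (Set.range s) R → ball T R := fun x => ⟨ev t (L x), hmem x⟩
  have key : ∀ (x : ball (Set.range s) R) (K : List (T × Bool)), K.length ≤ R + 1 →
      (ev s K = x ↔ ev t K = φ x) := by
    intro x K hK
    rw [← hL2 x]
    exact agree_pair h K (L x) (by have := hL1 x; omega)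
  have hbij : Function.Bijective φ := by
    constructor
    · intro x y hxy
      have h1 := (key y (L x) (by have := hL1 x; omega)).mpr (congrArg Subtype.val hxy)
      rw [hL2 x] at h1
      exact Subtype.ext h1
    · rintro ⟨y, hy⟩
      obtain ⟨K, hK, hKy⟩ := (mem_ball_iff t R y).mp (by rw [hT]; exact hy)
      have hx : ev s K ∈ ball (Set.range s) R := (mem_ball_iff s R _).mpr ⟨K, hK, rfl⟩
      refine ⟨⟨ev s K, hx⟩, Subtype.ext ?_⟩
      rw [← (key ⟨ev s K, hx⟩ K (by omega)).mp rfl, hKy]
  refine ⟨Equiv.ofBijective φ hbij, ?_, ?_⟩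
  · have := (key ⟨1, one_mem_ball _ R⟩ [] (by simp)).mp (ev_nil s)
    rw [ev_nil] at this
    exact this.symm
  · intro x y σ
    obtain ⟨i, hi⟩ : ∃ i, Equiv.ofInjective s hs i = σ := ⟨(Equiv.ofInjective s hs).symm σ, by simp⟩
    have h1 := key y (L x ++ [(i, true)]) (by have := hL1 x; simpa using this)
    rw [ev_append, ev_append, ev_single, ev_single, hL2 x] at h1
    subst hi
    rw [Equiv.symm_apply_apply]
    exact h1

theorem agree_of_sameBall {S : Set G} {T : Set H} {e : S ≃ T} {R : ℕ} (h : SameBall S T e R) :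
    ∀ L : List (T × Bool), L.length ≤ R →
      (ev (fun x => ((e.symm x : S) : G)) L = 1 ↔ ev (Subtype.val : T → H) L = 1) := by
  obtain ⟨φ, h1, h2⟩ := h
  set s : T → G := fun x => ((e.symm x : S) : G) with hs
  have hS : Set.range s = S := by
    ext g
    constructor
    · rintro ⟨x, rfl⟩; exact (e.symm x).2
    · intro hg; exact ⟨e ⟨g, hg⟩, by simp [hs]⟩
  have key : ∀ L : List (T × Bool), L.length ≤ R → ∃ hx : ev s L ∈ ball S R,
      (φ ⟨ev s L, hx⟩ : H) = ev (Subtype.val : T → H) L := by
    intro L
    induction L using List.reverseRecOn with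
    | nil =>
      intro _
      refine ⟨by rw [ev_nil]; exact one_mem_ball S R, ?_⟩
      refine Eq.trans ?_ (ev_nil (Subtype.val : T → H)).symm
      rw [← h1]
      congr 2
    | append_singleton L a ih =>
      intro hL
      rw [List.length_append, List.length_singleton] at hL
      obtain ⟨hx, ih⟩ := ih (by omega)
      have hy : ev s (L ++ [a]) ∈ ball S R := by
        have := (mem_ball_iff s R (ev s (L ++ [a]))).mpr ⟨L ++ [a], by simpa using hL, rfl⟩
        rwa [hS] at this
      refine ⟨hy, ?_⟩
      obtain ⟨i, b⟩ := a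
      cases b
      · have h3 := (h2 ⟨_, hy⟩ ⟨_, hx⟩ (e.symm i)).mp (by
          change ev s (L ++ [(i, false)]) * s i = ev s L
          rw [ev_append, ev_single]
          simp)
        rw [Equiv.apply_symm_apply, ih] at h3
        have h4 : ev (Subtype.val : T → H) (L ++ [(i, false)]) =
            ev (Subtype.val : T → H) L * (i : H)⁻¹ := by rw [ev_append, ev_single]; rfl
        exact (eq_mul_inv_of_mul_eq h3).trans h4.symm
      · have h3 := (h2 ⟨_, hx⟩ ⟨_, hy⟩ (e.symm i)).mp (by
          change ev s L * s i = ev s (L ++ [(i, true)])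
          rw [ev_append, ev_single]
          simp)
        rw [Equiv.apply_symm_apply, ih] at h3
        have h4 : ev (Subtype.val : T → H) (L ++ [(i, true)]) =
            ev (Subtype.val : T → H) L * (i : H) := by rw [ev_append, ev_single]; rfl
        exact h3.symm.trans h4.symm
  intro L hL
  obtain ⟨hx, h3⟩ := key L hL
  constructor
  · intro h4
    rw [← h3, ← h1]
    congr 2
    exact Subtype.ext h4
  · intro h4
    rw [h4, ← h1] at h3
    have h5 := φ.injective (Subtype.ext h3)
    exact congrArg Subtype.val h5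

end twosided

/-- word form of `⪯` on a given tuple -/
abbrev Ap {ι : Type*} (G : Type*) {H : Type*} [Group G] [Group H] (t : ι → H) : Prop :=
  Appr (G := G) (fun _ => True) t

theorem words_finite (ι : Type*) [Finite ι] (M : ℕ) :
    ((fun L : List (ι × Bool) => FreeGroup.mk L) '' {L | L.length ≤ M}).Finite :=
  (List.finite_length_le (ι × Bool) M).image _

theorem preceq_of_ap {G H : Type*} [Group G] [Group H] (T : Set H) (hT : T.Finite)
    (hgen : closure T = ⊤) (h : Ap G (Subtype.val : T → H)) : Preceq G H := by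
  classical
  have : Finite T := hT
  have hW : ∀ n : ℕ, ∃ s : T → G, closure (Set.range s) = ⊤ ∧
      ∀ L : List (T × Bool), L.length ≤ 2 * n + 2 → (ev s L = 1 ↔ ev (Subtype.val : T → H) L = 1) := by
    intro n
    obtain ⟨s, -, h2, h3⟩ := h (words_finite T (2 * n + 2)).toFinset
    refine ⟨s, h2, fun L hL => ?_⟩
    rw [ev_eq, ev_eq]
    apply h3
    rw [Set.Finite.mem_toFinset]
    exact ⟨L, hL, rfl⟩
  choose s hs1 hs2 using hW
  have hinj : ∀ n, Function.Injective (s n) := by
    intro n i j hij
    have h1 := hs2 n [(i, true), (j, false)] (by simp)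
    simp only [ev, List.map_cons, List.map_nil, List.prod_cons, List.prod_nil, cond_true, cond_false,
      mul_one] at h1
    have h2 := h1.mp (by rw [hij, mul_inv_cancel])
    exact Subtype.ext (mul_inv_eq_one.mp h2)
  refine ⟨T, hT, hgen, fun n => Set.range (s n), fun n => (Equiv.ofInjective (s n) (hinj n)).symm,
    fun n => ⟨Set.finite_range _, hs1 n⟩, fun R => ⟨R, fun n hn => ?_⟩⟩
  exact sameBall_of_agree (hinj n) R fun L hL => hs2 n L (by omega)

theorem ap_of_preceq {G H : Type*} [Group G] [Group H] (h : Preceq G H) :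
    ∃ T : Set H, T.Finite ∧ closure T = ⊤ ∧ Ap G (Subtype.val : T → H) := by
  classical
  obtain ⟨T, hT, hgen, S, e, hS, hR⟩ := h
  refine ⟨T, hT, hgen, fun W => ?_⟩
  obtain ⟨N, hN⟩ := hR (W.sup fun w => w.toWord.length)
  have h1 := agree_of_sameBall (hN N le_rfl)
  refine ⟨fun x => (((e N).symm x : S N) : G), trivial, ?_, ?_⟩
  · have : Set.range (fun x => (((e N).symm x : S N) : G)) = S N := by
      ext g
      constructor
      · rintro ⟨x, rfl⟩; exact ((e N).symm x).2
      · intro hg; exact ⟨e N ⟨g, hg⟩, by simp⟩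
    rw [this]; exact (hS N).2
  · intro w hw
    have h2 := h1 w.toWord (Finset.le_sup (f := fun w => (FreeGroup.toWord w).length) hw)
    rw [ev_eq, ev_eq, FreeGroup.mk_toWord] at h2
    exact h2

theorem ap_indep {ι κ : Type*} [Finite ι] {G H : Type*} [Group G] [Group H] {t : ι → H}
    (ht : closure (Set.range t) = ⊤) (h : Ap G t) {t' : κ → H} (ht' : closure (Set.range t') = ⊤) :
    Ap G t' := by
  classical
  have := Fintype.ofFinite ι
  choose A hA using fun j => lift_surjective ht (t' j)
  choose V hV using fun i => lift_surjective ht' (t i)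
  have hcomp : ∀ {K : Type _} [Group K] (s : ι → K) (w : FreeGroup κ),
      FreeGroup.lift s (FreeGroup.lift A w) = FreeGroup.lift (fun j => FreeGroup.lift s (A j)) w := by
    intro K _ s w
    have : (FreeGroup.lift s).comp (FreeGroup.lift A) =
        FreeGroup.lift (fun j => FreeGroup.lift s (A j)) := by
      ext i; simp
    exact DFunLike.congr_fun this w
  have hcompH : ∀ (w : FreeGroup κ), FreeGroup.lift t (FreeGroup.lift A w) = FreeGroup.lift t' w := by
    intro w
    have : (FreeGroup.lift t).comp (FreeGroup.lift A) = FreeGroup.lift t' := by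
      ext i; simp [hA]
    exact DFunLike.congr_fun this w
  intro W
  obtain ⟨s, -, h2, h3⟩ := h (W.image (FreeGroup.lift A) ∪
    Finset.univ.image fun i => FreeGroup.lift A (V i) * (FreeGroup.of i)⁻¹)
  refine ⟨fun j => FreeGroup.lift s (A j), trivial, ?_, ?_⟩
  · rw [eq_top_iff, ← h2, closure_le]
    rintro _ ⟨i, rfl⟩
    have h4 := (h3 (FreeGroup.lift A (V i) * (FreeGroup.of i)⁻¹)
      (Finset.mem_union_right _ (Finset.mem_image_of_mem _ (Finset.mem_univ i)))).mpr (by
        rw [map_mul, hcompH, hV, map_inv, FreeGroup.lift_apply_of, mul_inv_cancel])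
    rw [map_mul, map_inv, FreeGroup.lift_apply_of, mul_inv_eq_one, hcomp] at h4
    rw [← h4, ← FreeGroup.range_lift_eq_closure]
    exact ⟨_, rfl⟩
  · intro w hw
    rw [← hcomp, ← hcompH]
    exact h3 _ (Finset.mem_union_left _ (Finset.mem_image_of_mem _ hw))

end Pool.Agent.N73.Dir
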