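import Mathlib

set_option autoImplicit false

/-! Finite quotients of finitely generated nilpotent groups: torsion-free subgroups of finite index,
residual `p`-finiteness. -/

namespace Pool.Agent.N73.Dir

open Subgroup
open scoped commutatorElement

variable {G : Type*} [Group G]

/-- torsion-free as a predicate on subgroups -/
def TF (N : Subgroup G) : Prop := ∀ x ∈ N, ∀ n : ℕ, 0 < n → x ^ n = 1 → x = 1

theorem comm_pow {y g : G} (h : ⁅y, g⁆ ∈ center G) (n : ℕ) : ⁅y ^ n, g⁆ = ⁅y, g⁆ ^ n := by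
  induction n with
  | zero => simp
  | succ n ih =>
    have hc := mem_center_iff.mp h
    rw [commutatorElement_def] at hc ih ⊢
    have h1 : y ^ (n + 1) * g * (y ^ (n + 1))⁻¹ * g⁻¹ =
        y ^ n * (y * g * y⁻¹ * g⁻¹) * (y ^ n)⁻¹ * (y ^ n * g * (y ^ n)⁻¹ * g⁻¹) := by
      rw [pow_succ]; group
    rw [h1, hc (y ^ n), ih, commutatorElement_def, pow_succ]
    have h2 : y * g * y⁻¹ * g⁻¹ * y ^ n * (y ^ n)⁻¹ = y * g * y⁻¹ * g⁻¹ := by group
    rw [h2, ← commutatorElement_def]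
    exact (pow_succ' _ _).symm.trans (pow_succ _ _)

theorem finite_of_fg_torsion (G : Type*) [Group G] [Group.IsNilpotent G] :
    Group.FG G → (∀ g : G, ∃ n : ℕ, 0 < n ∧ g ^ n = 1) → Finite G := by
  apply Group.nilpotent_center_quotient_ind (P := fun G _ _ =>
    Group.FG G → (∀ g : G, ∃ n : ℕ, 0 < n ∧ g ^ n = 1) → Finite G)
  · intro G _ _ _ _
    infer_instance
  · intro G _ _ ih hfg ht
    have h1 : Finite (G ⧸ center G) := by
      apply ih inferInstance
      intro q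
      obtain ⟨g, rfl⟩ := QuotientGroup.mk_surjective q
      obtain ⟨n, hn, h⟩ := ht g
      exact ⟨n, hn, by rw [← QuotientGroup.mk_pow, h, QuotientGroup.mk_one]⟩
    have h2 : (center G).FiniteIndex := finiteIndex_of_finite_quotient
    have h3 : Group.FG (center G) := (center G).fg_of_index_ne_zero
    have h4 : Finite (center G) := by
      let cg : CommGroup (center G) :=
        { (inferInstance : Group (center G)) with
          mul_comm := fun a b => Subtype.ext (mem_center_iff.mp b.2 a) }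
      refine @CommGroup.finite_of_fg_isMulTorsion (center G) cg h3 ?_
      intro g
      obtain ⟨n, hn, h⟩ := ht g
      rw [isOfFinOrder_iff_pow_eq_one]
      exact ⟨n, hn, by ext; simpa using h⟩
    exact Finite.of_subgroup_quotient (center G)

/-- if the center has exponents in a multiplicative set `E` then the whole group has -/
theorem exp_of_center (E : Submonoid ℕ) (G : Type*) [Group G] [Group.IsNilpotent G] :
    Group.FG G → (∀ g ∈ center G, ∃ n ∈ E, g ^ n = 1) → ∀ g : G, ∃ n ∈ E, g ^ n = 1 := by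
  apply Group.nilpotent_center_quotient_ind (P := fun G _ _ =>
    Group.FG G → (∀ g ∈ center G, ∃ n ∈ E, g ^ n = 1) → ∀ g : G, ∃ n ∈ E, g ^ n = 1)
  · intro G _ _ _ _ g
    exact ⟨1, E.one_mem, Subsingleton.elim _ _⟩
  · intro G _ _ ih hfg hc g
    have key : ∀ q ∈ center (G ⧸ center G), ∃ n ∈ E, q ^ n = 1 := by
      intro q hq
      obtain ⟨y, rfl⟩ := QuotientGroup.mk_surjective q
      have hy : ∀ g : G, ⁅y, g⁆ ∈ center G := by
        intro g
        rw [← QuotientGroup.eq_one_iff, commutatorElement_def]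
        have := mem_center_iff.mp hq (g : G ⧸ center G)
        rw [QuotientGroup.mk_mul, QuotientGroup.mk_mul, QuotientGroup.mk_mul, ← this,
          QuotientGroup.mk_inv, QuotientGroup.mk_inv]
        group
      obtain ⟨S, hS⟩ := hfg.1
      choose f hf1 hf2 using fun g => hc _ (hy g)
      refine ⟨∏ s ∈ S, f s, E.prod_mem fun s _ => hf1 s, ?_⟩
      have h1 : ∀ s ∈ S, ⁅y ^ (∏ s ∈ S, f s), s⁆ = 1 := by
        intro s hs
        rw [comm_pow (hy s)]
        obtain ⟨k, hk⟩ := Finset.dvd_prod_of_mem f hs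
        rw [hk, pow_mul, hf2, one_pow]
      rw [← QuotientGroup.mk_pow, QuotientGroup.eq_one_iff, mem_center_iff]
      intro g
      have h2 : g ∈ closure (S : Set G) := by rw [hS]; trivial
      induction h2 using closure_induction with
      | mem x hx => exact (commutatorElement_eq_one_iff_mul_comm.mp (h1 x hx)).symm
      | one => simp
      | mul a b _ _ ha hb => rw [mul_assoc, hb, ← mul_assoc, ha, mul_assoc]
      | inv a _ ha =>
        have : a⁻¹ * (a * y ^ (∏ s ∈ S, f s)) * a⁻¹ = a⁻¹ * (y ^ (∏ s ∈ S, f s) * a) * a⁻¹ := by rw [ha]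
        have e1 : a⁻¹ * (a * y ^ (∏ s ∈ S, f s)) * a⁻¹ = y ^ (∏ s ∈ S, f s) * a⁻¹ := by group
        have e2 : a⁻¹ * (y ^ (∏ s ∈ S, f s) * a) * a⁻¹ = a⁻¹ * y ^ (∏ s ∈ S, f s) := by group
        rw [← e1, ← e2, this]
    obtain ⟨n, hn, h⟩ := ih inferInstance key (g : G ⧸ center G)
    rw [← QuotientGroup.mk_pow, QuotientGroup.eq_one_iff] at h
    obtain ⟨m, hm, h'⟩ := hc _ h
    exact ⟨n * m, E.mul_mem hn hm, by rw [pow_mul, h']⟩

/-- a subgroup of the center is normal -/
theorem normal_of_le_center {C : Subgroup G} (h : C ≤ center G) : C.Normal := by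
  constructor
  intro n hn g
  rw [mem_center_iff.mp (h hn) g]
  simpa using hn

theorem sSup_normal {c : Set (Subgroup G)} (h : ∀ K ∈ c, K.Normal) (hne : c.Nonempty)
    (hd : DirectedOn (· ≤ ·) c) : (sSup c).Normal := by
  constructor
  intro n hn g
  rw [mem_sSup_of_directedOn hne hd] at hn ⊢
  obtain ⟨K, hK, hn⟩ := hn
  exact ⟨K, hK, (h K hK).conj_mem n hn g⟩

/-- A finitely generated nilpotent group has a torsion-free normal subgroup of finite index. -/
theorem exists_TF (N : Type*) [Group N] [Group.IsNilpotent N] [Group.FG N] :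
    ∃ Q : Subgroup N, Q.Normal ∧ Q.FiniteIndex ∧ TF Q := by
  obtain ⟨Q, -, hQ⟩ := zorn_le_nonempty₀ {Q : Subgroup N | Q.Normal ∧ TF Q} (by
    intro c hc hch K hK
    have hne : c.Nonempty := ⟨K, hK⟩
    refine ⟨sSup c, ⟨sSup_normal (fun K hK => (hc hK).1) hne hch.directedOn, ?_⟩,
      fun K hK => le_sSup hK⟩
    intro x hx n hn h
    rw [mem_sSup_of_directedOn hne hch.directedOn] at hx
    obtain ⟨K, hK, hx⟩ := hx
    exact (hc hK).2 x hx n hn h) ⊥ ⟨inferInstance, by
      intro x hx _ _ _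
      simpa using hx⟩
  have hn : Q.Normal := hQ.prop.1
  refine ⟨Q, hn, ?_, hQ.prop.2⟩
  have hfin : Finite (N ⧸ Q) := by
    apply finite_of_fg_torsion (N ⧸ Q) inferInstance
    intro g
    let E : Submonoid ℕ := ⟨⟨{n | 0 < n}, fun {a b} ha hb => Nat.mul_pos ha hb⟩, Nat.one_pos⟩
    have h := exp_of_center E (N ⧸ Q) inferInstance ?_ g
    · exact h
    intro y hy
    by_cases hy1 : y = 1
    · exact ⟨1, Nat.one_pos, by simp [hy1]⟩
    obtain ⟨y0, rfl⟩ := QuotientGroup.mk_surjective y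
    let Q' : Subgroup N := (zpowers (y0 : N ⧸ Q)).comap (QuotientGroup.mk' Q)
    have hz : (zpowers (y0 : N ⧸ Q)).Normal :=
      normal_of_le_center (by rw [zpowers_le]; exact hy)
    have hQ' : Q'.Normal := inferInstance
    have hle : Q ≤ Q' := by
      intro x hx
      change (x : N ⧸ Q) ∈ zpowers (y0 : N ⧸ Q)
      rw [(QuotientGroup.eq_one_iff x).mpr hx]
      exact one_mem _
    have hy0 : y0 ∈ Q' := mem_zpowers (y0 : N ⧸ Q)
    have hnot : ¬ TF Q' := by
      intro hTF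
      have := hQ.le_of_ge (⟨hQ', hTF⟩ : Q' ∈ {Q : Subgroup N | Q.Normal ∧ TF Q}) hle
      exact hy1 ((QuotientGroup.eq_one_iff y0).mpr (this hy0))
    unfold TF at hnot
    push Not at hnot
    obtain ⟨x, hx, n, hn, hxn, hx1⟩ := hnot
    obtain ⟨a, ha⟩ : ∃ a : ℤ, (y0 : N ⧸ Q) ^ a = (x : N ⧸ Q) := hx
    have ha0 : a ≠ 0 := by
      rintro rfl
      rw [zpow_zero] at ha
      exact hx1 (hQ.prop.2 x ((QuotientGroup.eq_one_iff x).mp ha.symm) n hn hxn)
    refine ⟨(a * n).natAbs, Int.natAbs_pos.mpr (mul_ne_zero ha0 (by exact_mod_cast hn.ne')), ?_⟩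
    have h1 : (y0 : N ⧸ Q) ^ (a * n) = 1 := by
      rw [zpow_mul, ha, zpow_natCast, ← QuotientGroup.mk_pow, hxn, QuotientGroup.mk_one]
    rcases Int.natAbs_eq (a * n) with h2 | h2
    · rw [← zpow_natCast, ← h2, h1]
    · rw [← zpow_natCast, ← inv_inj, inv_one, ← zpow_neg, ← h2, h1]
  exact finiteIndex_of_finite_quotient

/-- the factors of the upper central series of a torsion-free group are torsion-free -/
theorem ucs_TF (h : TF (⊤ : Subgroup G)) (i : ℕ) : ∀ y ∈ Subgroup.upperCentralSeries G (i + 1),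
    ∀ n : ℕ, 0 < n → y ^ n ∈ Subgroup.upperCentralSeries G i → y ∈ Subgroup.upperCentralSeries G i := by
  induction i with
  | zero =>
    intro y _ n hn hy
    rw [Subgroup.upperCentralSeries_zero, mem_bot] at hy ⊢
    exact h y trivial n hn hy
  | succ i ih =>
    intro y hy n hn hyn
    rw [Subgroup.mem_upperCentralSeries_succ_iff]
    intro g
    have hc : ⁅y, g⁆ ∈ Subgroup.upperCentralSeries G (i + 1) := Subgroup.mem_upperCentralSeries_succ_iff.mp hy g
    apply ih _ hc n hn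
    have h1 : ⁅(y : G ⧸ Subgroup.upperCentralSeries G i), (g : G ⧸ Subgroup.upperCentralSeries G i)⁆ ∈
        center (G ⧸ Subgroup.upperCentralSeries G i) := by
      rw [mem_center_iff]
      intro q
      obtain ⟨x, rfl⟩ := QuotientGroup.mk_surjective q
      have h2 := Subgroup.mem_upperCentralSeries_succ_iff.mp hc x
      rw [← QuotientGroup.eq_one_iff] at h2
      have h3 : ⁅((⁅y, g⁆ : G) : G ⧸ Subgroup.upperCentralSeries G i), (x : G ⧸ Subgroup.upperCentralSeries G i)⁆ = 1 := by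
        rw [← h2]; rfl
      exact (commutatorElement_eq_one_iff_mul_comm.mp h3).symm
    have h2 := comm_pow h1 n
    have h3 := Subgroup.mem_upperCentralSeries_succ_iff.mp hyn g
    rw [← QuotientGroup.eq_one_iff] at h3 ⊢
    have h4 : ((⁅y ^ n, g⁆ : G) : G ⧸ Subgroup.upperCentralSeries G i) =
        ⁅(y : G ⧸ Subgroup.upperCentralSeries G i) ^ n, (g : G ⧸ Subgroup.upperCentralSeries G i)⁆ := rfl
    rw [h4, h2] at h3
    exact h3

/-- residual `p`-finiteness at a central element of order `p` -/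
theorem residual_center (p : ℕ) [hp : Fact p.Prime] (M : Type*) [Group M] [Group.IsNilpotent M]
    [Group.FG M] (z : M) (hz1 : z ≠ 1) (hzp : z ^ p = 1) :
    ∃ Q : Subgroup M, Q.Normal ∧ z ∉ Q ∧ Q.FiniteIndex ∧ ∃ e : ℕ, ∀ x : M, x ^ (p ^ e) ∈ Q := by
  obtain ⟨Q, -, hQ⟩ := zorn_le_nonempty₀ {Q : Subgroup M | Q.Normal ∧ z ∉ Q} (by
    intro c hc hch K hK
    have hne : c.Nonempty := ⟨K, hK⟩
    refine ⟨sSup c, ⟨sSup_normal (fun K hK => (hc hK).1) hne hch.directedOn, ?_⟩,
      fun K hK => le_sSup hK⟩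
    intro hx
    rw [mem_sSup_of_directedOn hne hch.directedOn] at hx
    obtain ⟨K, hK, hx⟩ := hx
    exact (hc hK).2 hx) ⊥ ⟨inferInstance, by simpa using hz1⟩
  have hn : Q.Normal := hQ.prop.1
  have hzQ : z ∉ Q := hQ.prop.2
  have hz1' : (z : M ⧸ Q) ≠ 1 := fun h => hzQ ((QuotientGroup.eq_one_iff z).mp h)
  have hzp' : (z : M ⧸ Q) ^ p = 1 := by rw [← QuotientGroup.mk_pow, hzp, QuotientGroup.mk_one]
  have hcen : ∀ y ∈ center (M ⧸ Q), y ≠ 1 → ∃ a : ℤ, y ^ a = (z : M ⧸ Q) := by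
    intro y hy hy1
    obtain ⟨y0, rfl⟩ := QuotientGroup.mk_surjective y
    let Q' : Subgroup M := (zpowers (y0 : M ⧸ Q)).comap (QuotientGroup.mk' Q)
    have hzz : (zpowers (y0 : M ⧸ Q)).Normal :=
      normal_of_le_center (by rw [zpowers_le]; exact hy)
    have hQ' : Q'.Normal := inferInstance
    have hle : Q ≤ Q' := by
      intro x hx
      change (x : M ⧸ Q) ∈ zpowers (y0 : M ⧸ Q)
      rw [(QuotientGroup.eq_one_iff x).mpr hx]
      exact one_mem _
    have hy0 : y0 ∈ Q' := mem_zpowers (y0 : M ⧸ Q)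
    by_contra hne
    have hzQ' : z ∉ Q' := fun h => hne h
    have := hQ.le_of_ge (⟨hQ', hzQ'⟩ : Q' ∈ {Q : Subgroup M | Q.Normal ∧ z ∉ Q}) hle
    exact hy1 ((QuotientGroup.eq_one_iff y0).mpr (this hy0))
  have hall : ∀ y : M ⧸ Q, ∃ n ∈ Submonoid.powers p, y ^ n = 1 := by
    apply exp_of_center (Submonoid.powers p) (M ⧸ Q) inferInstance
    intro y hy
    by_cases hy1 : y = 1
    · exact ⟨1, one_mem _, by simp [hy1]⟩
    obtain ⟨a, ha⟩ := hcen y hy hy1
    have ha0 : a ≠ 0 := by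
      rintro rfl
      exact hz1' (by rw [← ha, zpow_zero])
    have hfo : IsOfFinOrder y := by
      rw [isOfFinOrder_iff_zpow_eq_one]
      exact ⟨a * p, mul_ne_zero ha0 (by exact_mod_cast hp.out.ne_zero), by
        rw [zpow_mul, ha, zpow_natCast, hzp']⟩
    obtain ⟨k, m, hm, hkm⟩ := Nat.exists_eq_pow_mul_and_not_dvd hfo.orderOf_pos.ne' p hp.out.ne_one
    refine ⟨p ^ k, ⟨k, rfl⟩, ?_⟩
    by_contra hne
    obtain ⟨b, hb⟩ := hcen (y ^ p ^ k) (pow_mem hy _) hne
    have h1 : (z : M ⧸ Q) ^ m = 1 := by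
      rw [← hb, ← zpow_natCast, ← zpow_mul, mul_comm, zpow_mul, zpow_natCast, ← pow_mul, ← hkm,
        pow_orderOf_eq_one, one_zpow]
    have h2 : Nat.gcd m p = 1 := ((Nat.Prime.coprime_iff_not_dvd hp.out).mpr hm).symm
    have h3 := pow_gcd_eq_one.mpr ⟨h1, hzp'⟩
    rw [h2, pow_one] at h3
    exact hz1' h3
  have hfin : Finite (M ⧸ Q) := by
    apply finite_of_fg_torsion (M ⧸ Q) inferInstance
    intro g
    obtain ⟨n, ⟨k, rfl⟩, h⟩ := hall g
    exact ⟨p ^ k, pow_pos hp.out.pos k, h⟩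
  have hpg : IsPGroup p (M ⧸ Q) := by
    intro g
    obtain ⟨n, ⟨k, rfl⟩, h⟩ := hall g
    exact ⟨k, h⟩
  obtain ⟨e, he⟩ := hpg.exists_card_eq
  refine ⟨Q, hn, hzQ, finiteIndex_of_finite_quotient, e, fun x => ?_⟩
  rw [← QuotientGroup.eq_one_iff, QuotientGroup.mk_pow, ← he]
  exact pow_card_eq_one'

end Pool.Agent.N73.Dir
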